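import Pool.Agent.Helper53.CTG.Goals

/-!
# Project CTG (MP_8b4d68_lc), packet CTG-LG (helper93), after `Helper24/CTR/LG.lean` and `Helper79/TE/LG1.lean`
-/

namespace Pool.Agent.Helper93.CTG

open Pool.Agent.Helper53.CTG

open Pool.Agent.Helper65.LinSpace (dig tab nrec ifz eq01 le01 lt01 capPow)

theorem peel (w u : List Bool) (s n : ℕ) :
    w.drop s = List.replicate n true ++ false :: u ↔
      (Ones w s n ∧ w[s + n]? = some false ∧ u = w.drop (s + n + 1)) := by
  constructor
  · intro h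
    have h1 : ∀ i, w[s + i]? = (List.replicate n true ++ false :: u)[i]? := by
      intro i
      rw [← h, List.getElem?_drop]
    refine ⟨?_, ?_, ?_⟩
    · intro i hi
      rw [h1, List.getElem?_append_left (by rw [List.length_replicate]; exact hi),
        List.getElem?_replicate, if_pos hi]
    · rw [h1, List.getElem?_append_right (by rw [List.length_replicate]), List.length_replicate,
        Nat.sub_self, List.getElem?_cons_zero]
    · have h2 : (w.drop s).drop (n + 1) = w.drop (s + n + 1) := by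
        rw [List.drop_drop]
        congr 1
      have h3 : (List.replicate n true ++ false :: u) =
          (List.replicate n true ++ [false]) ++ u := by simp
      rw [← h2, h, h3, List.drop_left']
      simp
  · rintro ⟨h1, h2, h3⟩
    apply List.ext_getElem?
    intro i
    rw [List.getElem?_drop]
    rcases Nat.lt_trichotomy i n with hi | hi | hi
    · rw [List.getElem?_append_left (by rw [List.length_replicate]; exact hi),
        List.getElem?_replicate, if_pos hi, h1 i hi]
    · rw [hi, List.getElem?_append_right (by rw [List.length_replicate]), List.length_replicate,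
        Nat.sub_self, List.getElem?_cons_zero, h2]
    · obtain ⟨j, rfl⟩ : ∃ j, i = n + 1 + j := ⟨i - (n + 1), by omega⟩
      rw [List.getElem?_append_right (by rw [List.length_replicate]; omega),
        List.length_replicate, show n + 1 + j - n = j + 1 by omega, List.getElem?_cons_succ, h3,
        List.getElem?_drop]
      congr 1
      omega

theorem form_iff (w v : List Bool) (h q b c : ℕ) :
    w = List.replicate h true ++ false :: (List.replicate q true ++ false ::
      (List.replicate b true ++ false :: (List.replicate c true ++ false :: v))) ↔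
      (P3 w h q b c ∧ w[h + q + b + 3 + c]? = some false ∧ v = dat w h q b c) := by
  have e1 : (w = List.replicate h true ++ false :: (List.replicate q true ++ false ::
      (List.replicate b true ++ false :: (List.replicate c true ++ false :: v)))) ↔
      (w.drop 0 = List.replicate h true ++ false :: (List.replicate q true ++ false ::
      (List.replicate b true ++ false :: (List.replicate c true ++ false :: v)))) := by
    rw [List.drop_zero]
  rw [e1, peel]
  constructor
  · rintro ⟨a1, a2, a3⟩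
    obtain ⟨b1, b2, b3⟩ := (peel _ _ _ _).1 a3.symm
    obtain ⟨c1, c2, c3⟩ := (peel _ _ _ _).1 b3.symm
    obtain ⟨d1, d2, d3⟩ := (peel _ _ _ _).1 c3.symm
    rw [Nat.zero_add] at a2 b1 b2 c1 c2 d1 d2 d3
    have i1 : h + 1 + q + 1 = h + q + 2 := by omega
    have i2 : h + q + 2 + b + 1 = h + q + b + 3 := by omega
    have i3 : h + q + b + 3 + c + 1 = h + q + b + c + 4 := by omega
    rw [i1] at c1 c2 d1 d2 d3
    rw [i2] at d1 d2 d3
    rw [i3] at d3
    exact ⟨⟨⟨⟨a1, a2, b1⟩, b2, c1⟩, c2, d1⟩, d2, d3⟩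
  · rintro ⟨⟨⟨⟨a1, a2, b1⟩, b2, c1⟩, c2, d1⟩, d2, d3⟩
    have i1 : 0 + h + 1 + q + 1 = h + q + 2 := by omega
    have i2 : 0 + h + 1 + q + 1 + b + 1 = h + q + b + 3 := by omega
    have i3 : 0 + h + 1 + q + 1 + b + 1 + c + 1 = h + q + b + c + 4 := by omega
    refine ⟨a1, by rw [Nat.zero_add]; exact a2, ?_⟩
    symm
    rw [peel]
    refine ⟨by rw [Nat.zero_add]; exact b1, by rw [Nat.zero_add]; exact b2, ?_⟩
    symm
    rw [peel]
    refine ⟨by rw [i1]; exact c1, by rw [i1]; exact c2, ?_⟩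
    symm
    rw [peel]
    exact ⟨by rw [i2]; exact d1, by rw [i2]; exact d2, by rw [i3]; exact d3⟩

theorem mem_iff (ok : ℕ → ℕ → ℕ → ℕ → ℕ) (D : Set (ℕ × ℕ × ℕ × ℕ))
    (hD : ∀ N q b c, (N, q, b, c) ∈ D ↔ ok N q b c ≠ 0) (w : List Bool) :
    w ∈ CallTree D ↔ ∃ N q b c, Full ok w N q b c ∧ rootV N q b c (dat w N q b c) = 1 := by
  constructor
  · rintro ⟨h, q, b, c, v, hq1, hq2, hb, hc, hD', hl, hr, hw⟩
    obtain ⟨h1, h2, h3⟩ := (form_iff w v h q b c).1 hw
    refine ⟨h, q, b, c, ⟨⟨h1, h2, hq1, hq2, hb, hc, (hD h q b c).1 hD'⟩, hl⟩, ?_⟩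
    rw [← h3]
    exact hr
  · rintro ⟨h, q, b, c, ⟨⟨h1, h2, hq1, hq2, hb, hc, hok⟩, hl⟩, hr⟩
    exact ⟨h, q, b, c, dat w h q b c, hq1, hq2, hb, hc, (hD h q b c).2 hok, hl, hr,
      (form_iff w _ h q b c).2 ⟨h1, h2, rfl⟩⟩

theorem gLG : GoalLG := by
  intro hFU ok D hD
  have e1 : ∀ v : ℕ, eq01 v 1 ≠ 0 ↔ v = 1 := by
    intro v
    unfold Pool.Agent.Helper65.LinSpace.eq01
    by_cases hv : v = 1 <;> simp [hv]
  have e2 : ∀ v : ℕ, 1 - eq01 v 1 ≠ 0 ↔ v ≠ 1 := by
    intro v
    unfold Pool.Agent.Helper65.LinSpace.eq01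
    by_cases hv : v = 1 <;> simp [hv]
  constructor
  · ext w
    rw [mem_iff ok D hD]
    constructor
    · rintro ⟨N, q, b, c, hf, hr⟩
      exact Or.inl ⟨N, q, b, c, hf, (e1 _).2 hr⟩
    · rintro (⟨N, q, b, c, hf, hr⟩ | ⟨h0, -⟩)
      · exact ⟨N, q, b, c, hf, (e1 _).1 hr⟩
      · exact absurd rfl h0
  · ext w
    rw [Set.mem_compl_iff, mem_iff ok D hD]
    constructor
    · intro hn
      by_cases hF : ∃ N q b c, Full ok w N q b c
      · obtain ⟨N, q, b, c, hf⟩ := hF
        exact Or.inl ⟨N, q, b, c, hf, (e2 _).2 fun hr => hn ⟨N, q, b, c, hf, hr⟩⟩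
      · exact Or.inr ⟨one_ne_zero, hF⟩
    · rintro (⟨N, q, b, c, hf, hr⟩ | ⟨-, hF⟩) ⟨N', q', b', c', hf', hr'⟩
      · have hu := (hFU ok w N' q' b' c' N q b c hf).2.2.2.2 hf'.1.1 hf'.1.2.1
        obtain ⟨rfl, rfl, rfl, rfl⟩ := hu
        exact (e2 _).1 hr hr'
      · exact hF ⟨N', q', b', c', hf'⟩

end Pool.Agent.Helper93.CTG
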